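import Pool.Agent.PBL.Quot
import Pool.Agent.PBL.Card

/-!
# Surjectively universal projective Banach lattices with a topological order unit

For every infinite index set `I` there is a projective Banach lattice `P` with a topological order
unit, without strong order unit, whose density character is the cardinality of `I`, such that
every Banach lattice with a topological order unit and with density character at most the
cardinality of `I` is a quotient of `P`. For uncountable `I` it is not separable.
-/

namespace Pool.Agent.Results.MP_f25e07_an.UniversalQuotient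

open Pool.Agent.PBL Cardinal

universe u

theorem result (I : Type u) [Infinite I] :
    ∃ (P : Type u) (_ : BanachLattice P),
      Projective P ∧
      (∃ e : P, IsTopUnit e) ∧
      (Uncountable I → ¬ TopologicalSpace.SeparableSpace P) ∧
      (∃ D : Set P, Dense D ∧ #D = #I) ∧
      (∀ D : Set P, Dense D → #I ≤ #D) ∧
      (∀ e : P, ∃ x : P, ∀ n : ℕ, ¬ |x| ≤ (n : ℝ) • e) ∧
      ∀ (X : Type u) [BanachLattice X], (∃ e : X, IsTopUnit e) →
        (∃ D : Set X, Dense D ∧ #D ≤ #I) → ∃ Q : P →L[ℝ] X, IsQuotMap Q := by
  refine ⟨Un I, inferInstance, un_projective, ⟨unit I, unit_isTopUnit⟩, fun hI hsep => ?_,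
    ⟨lays I, lays_dense, le_antisymm mk_lays_le (le_mk_of_dense _ lays_dense)⟩,
    le_mk_of_dense, no_strong, ?_⟩
  · obtain ⟨D, hc, hD⟩ := hsep
    have h1 := le_mk_of_dense D hD
    have h2 : #D ≤ ℵ₀ := Cardinal.mk_le_aleph0_iff.2 hc
    have h3 : ℵ₀ < #I := Cardinal.aleph0_lt_mk_iff.2 hI
    exact absurd (h1.trans h2) (not_le.2 h3)
  · rintro X _ ⟨e, he⟩ ⟨D, hD, hle⟩
    obtain ⟨f⟩ := Cardinal.le_def _ _ |>.1 hle
    have hne : Nonempty D := hD.nonempty.to_subtype
    refine exists_quot I X he (fun i => ((Function.invFun f i : D) : X)) ?_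
    refine hD.mono ?_
    intro x hx
    exact ⟨f ⟨x, hx⟩, congrArg Subtype.val (Function.leftInverse_invFun f.injective ⟨x, hx⟩)⟩

end Pool.Agent.Results.MP_f25e07_an.UniversalQuotient
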